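import Pool.Agent.K7.H74.AF.Stm

set_option autoImplicit false

/-! JOB MEAS of project AF. -/

open MeasureTheory Finset

namespace Pool.Agent.K7.H79.AF

open Pool.Agent.K7.H74.AF

theorem m_cn (k t : ℕ) (b : Fin t → ℕ) (η : ℝ) :
    Measurable fun p : (Fin t → ℝ) × ℝ => (cn k p.1 b η p.2 : ℝ) := by
  classical
  have e1 : (fun p : (Fin t → ℝ) × ℝ => (cn k p.1 b η p.2 : ℝ)) = fun p =>
      ∑ x ∈ Box b, if |∑ i, ((x i : ℝ) + p.1 i) ^ k - p.2| ≤ η then (1 : ℝ) else 0 := by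
    funext p
    unfold cn
    rw [Finset.card_filter]
    push_cast
    refine sum_congr rfl fun x _ => ?_
    congr!
  rw [e1]
  refine Finset.measurable_sum _ fun x _ => ?_
  refine Measurable.ite ?_ measurable_const measurable_const
  refine measurableSet_le ?_ measurable_const
  fun_prop

theorem s_vl (k t : ℕ) (b : Fin t → ℕ) (η : ℝ) :
    MeasurableSet {p : ℝ × (Fin t → ℝ) | (∀ i, (lo (b i) : ℝ) ≤ p.2 i ∧ p.2 i < 3 ^ b i) ∧
      |∑ i, p.2 i ^ k - p.1| ≤ η} := by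
  have e1 : {p : ℝ × (Fin t → ℝ) | (∀ i, (lo (b i) : ℝ) ≤ p.2 i ∧ p.2 i < 3 ^ b i) ∧ |∑ i, p.2 i ^ k - p.1| ≤ η} =
      (⋂ i, ({p : ℝ × (Fin t → ℝ) | (lo (b i) : ℝ) ≤ p.2 i} ∩ {p : ℝ × (Fin t → ℝ) | p.2 i < 3 ^ b i})) ∩
        {p : ℝ × (Fin t → ℝ) | |∑ i, p.2 i ^ k - p.1| ≤ η} := by
    ext p
    simp
  rw [e1]
  have m1 : ∀ i : Fin t, Measurable fun p : ℝ × (Fin t → ℝ) => p.2 i := fun i =>
    (measurable_pi_apply i).comp measurable_snd
  refine (MeasurableSet.iInter fun i => ?_).inter ?_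
  · exact (measurableSet_le measurable_const (m1 i)).inter (measurableSet_lt (m1 i) measurable_const)
  · refine measurableSet_le ?_ measurable_const
    exact ((Finset.measurable_sum _ fun i _ => (m1 i).pow_const k).sub measurable_fst).abs

theorem m_vl (k t : ℕ) (b : Fin t → ℕ) (η : ℝ) : Measurable fun τ : ℝ => vl k b η τ := by
  have h := measurable_measure_prodMk_left (ν := (volume : Measure (Fin t → ℝ))) (s_vl k t b η)
  exact h.ennreal_toReal

theorem s_lv (k t : ℕ) (b : Fin t → ℕ) (l : ℕ) :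
    MeasurableSet {p : (Fin t → ℝ) × ℝ | (2 : ℝ) ^ l ≤ cn k p.1 b 1 p.2} :=
  measurableSet_le measurable_const (m_cn k t b 1)

theorem s_ex (k t : ℕ) (b : Fin t → ℕ) (η : ℝ) (l : ℕ) :
    MeasurableSet {p : (Fin t → ℝ) × ℝ | vl k b η p.2 + (2 : ℝ) ^ l ≤ cn k p.1 b η p.2} :=
  measurableSet_le (((m_vl k t b η).comp measurable_snd).add measurable_const) (m_cn k t b η)

/-- JOB MEAS -/
theorem stMeas : StMeas := by
  refine ⟨m_cn, m_vl, ?_, ?_, ?_, ?_⟩
  · intro k t ξ b l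
    exact measurable_prodMk_left (x := ξ) (s_lv k t b l)
  · intro k t ξ b η l
    exact measurable_prodMk_left (x := ξ) (s_ex k t b η l)
  · intro k t b l c
    exact measurableSet_le
      (measurable_measure_prodMk_left (ν := (volume : Measure ℝ)) (s_lv k t b l)) measurable_const
  · intro k t b η l c
    exact measurableSet_le
      (measurable_measure_prodMk_left (ν := (volume : Measure ℝ)) (s_ex k t b η l)) measurable_const

end Pool.Agent.K7.H79.AF
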